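import Pool.Agent.W883.TL.OmB

/-! Project TL, part OM: independence of `Ω` at consecutive integers. -/

set_option autoImplicit false

namespace Pool.Agent.W883.TL

open Finset Filter Pool.Agent.W208.TL

lemma exists_y (K X : ℕ) (hK : 1 ≤ K) : ∃ y : ℕ, y ^ K ≤ X ∧ X < (y + 1) ^ K := by
  have h0 : (0 : ℕ) ^ K ≤ X := by
    rw [zero_pow (by omega)]
    exact Nat.zero_le X
  refine ⟨Nat.findGreatest (fun y => y ^ K ≤ X) X,
    Nat.findGreatest_spec (P := fun y => y ^ K ≤ X) (Nat.zero_le X) h0, ?_⟩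
  by_contra h
  push Not at h
  have h1 : Nat.findGreatest (fun y => y ^ K ≤ X) X + 1 ≤ X :=
    (Nat.le_self_pow (by omega) _).trans h
  exact Nat.findGreatest_is_greatest (P := fun y => y ^ K ≤ X) (Nat.lt_succ_self _) h1 h

lemma cav_norm (k w y Z : ℕ) (Φ : (Fin k → ℕ) → ℂ) (hΦ : ∀ d, ‖Φ d‖ ≤ 1)
    (hs : 0 < ∑ d ∈ Icc 1 Z, mu w y d) (A : Fin k → ℕ) : ‖cav w y Z Φ A‖ ≤ 1 := by
  unfold cav
  rw [norm_div]
  have e1 : ‖(∑ d ∈ Icc 1 Z, (mu w y d : ℂ)) ^ k‖ = (∑ d ∈ Icc 1 Z, mu w y d) ^ k := by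
    rw [norm_pow, ← Complex.ofReal_sum, Complex.norm_real, Real.norm_eq_abs, abs_of_pos hs]
  rw [e1, div_le_one (pow_pos hs k)]
  refine (norm_sum_le _ _).trans ?_
  rw [← sum_box]
  refine Finset.sum_le_sum fun d _ => ?_
  rw [norm_mul, norm_prod]
  have g3 : ∏ j, ‖(mu w y (d j) : ℂ)‖ = ∏ j, mu w y (d j) := by
    refine Finset.prod_congr rfl fun j _ => ?_
    rw [Complex.norm_real, Real.norm_eq_abs, abs_of_nonneg (mu_nonneg w y _)]
  rw [g3]
  exact mul_le_of_le_one_left (Finset.prod_nonneg fun j _ => mu_nonneg w y _) (hΦ _)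

lemma lf_le {k : ℕ} (a : Fin k → ℤ) (j : Fin k) (n : ℕ) :
    lf 1 (a j) n ≤ n + ∑ i, (a i).natAbs := by
  have h1 : (a j).natAbs ≤ ∑ i, (a i).natAbs :=
    Finset.single_le_sum (f := fun i => (a i).natAbs) (fun _ _ => Nat.zero_le _) (Finset.mem_univ j)
  unfold lf
  have h2 := Int.natAbs_add_le (((1 : ℕ) : ℤ) * n) (a j)
  have h3 : (((1 : ℕ) : ℤ) * n).natAbs = n := by simp
  omega

theorem om : ST → OM := by
  intro hST k h0 h hk hinj hne ε hε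
  set a : Fin k → ℤ := fun j => (h j : ℤ) - h0 with ha
  have ainj : Function.Injective a := by
    intro i j hij
    apply hinj
    have : (h i : ℤ) - h0 = (h j : ℤ) - h0 := hij
    omega
  have ane : ∀ j, a j ≠ 0 := by
    intro j hj
    apply hne j
    have : (h j : ℤ) - h0 = 0 := hj
    omega
  set ε1 : ℝ := min (1 / 2) (ε / (8 * 2 ^ k)) with hε1
  have hε1pos : 0 < ε1 := lt_min (by norm_num) (by positivity)
  have hε1half : ε1 ≤ 1 / 2 := min_le_left _ _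
  have hε1k : 2 ^ k * ε1 ≤ ε / 8 := by
    have : ε1 ≤ ε / (8 * 2 ^ k) := min_le_right _ _
    calc 2 ^ k * ε1 ≤ 2 ^ k * (ε / (8 * 2 ^ k)) := by gcongr
      _ = ε / 8 := by field_simp
  have hε1' : ε1 ≤ ε / 8 := by
    have : (1 : ℝ) ≤ 2 ^ k := one_le_pow₀ (by norm_num)
    nlinarith
  obtain ⟨Q, w, K1, K, y0, -, hQ, hK1, hK, H⟩ := hST k a hk ainj ane 1 le_rfl ε1 hε1pos
  set R : ℕ := 2 * K with hR
  set D : ℝ := k * R + k * Om Q + 2 * (2 ^ k * (R + w)) with hD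
  have hD0 : 0 ≤ D := by positivity
  set δ : ℝ := ε / (4 * (D + 1)) with hδ
  have hδ0 : 0 < δ := by positivity
  have hδD : δ * D ≤ ε / 4 := by
    rw [hδ, div_mul_eq_mul_div, div_le_iff₀ (by positivity)]
    nlinarith
  set Hh : ℕ := ∑ i, (a i).natAbs with hHh
  set Y0 : ℕ := max y0 (max w 2) with hY0
  obtain ⟨X1, hX1⟩ := exists_nat_ge (8 * (h0 : ℝ) / ε)
  refine ⟨δ, hδ0, max (max X1 (Hh + 1)) (Y0 ^ K), ?_⟩
  intro X hX b hb G hG hL
  have hXX1 : X1 ≤ X := ((le_max_left _ _).trans (le_max_left _ _)).trans hX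
  have hXH : Hh + 1 ≤ X := ((le_max_right _ _).trans (le_max_left _ _)).trans hX
  have hXY : Y0 ^ K ≤ X := (le_max_right _ _).trans hX
  have hX0 : 0 < X := by omega
  have hXr : (0 : ℝ) < X := by exact_mod_cast hX0
  obtain ⟨y, hy1, hy2⟩ := exists_y K X hK
  have hyY : Y0 ≤ y := by
    by_contra h1
    push Not at h1
    have : (y + 1) ^ K ≤ Y0 ^ K := Nat.pow_le_pow_left h1 K
    omega
  have hyy0 : y0 ≤ y := (le_max_left _ _).trans hyY
  have hyw : w ≤ y := ((le_max_left _ _).trans (le_max_right _ _)).trans hyY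
  have hy2' : 2 ≤ y := ((le_max_right _ _).trans (le_max_right _ _)).trans hyY
  -- all arguments are below `y ^ (R + 1)`
  have hbig : 2 * X < y ^ (R + 1) := by
    have h1 : (y + 1) ^ K ≤ (y ^ 2) ^ K := Nat.pow_le_pow_left (by nlinarith) K
    have h2 : (y ^ 2) ^ K = y ^ R := by rw [← pow_mul, hR]
    have h3 : y ^ (R + 1) = y ^ R * y := pow_succ y R
    rw [h3]
    calc 2 * X < 2 * y ^ R := by omega
      _ ≤ y ^ R * y := by rw [mul_comm]; exact Nat.mul_le_mul_left _ hy2'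
  obtain ⟨s1, s2, s3⟩ := H y X hyy0 hy1
  set s : ℝ := ∑ d ∈ Icc 1 (y ^ K1), mu w y d with hs
  have hs2 : s ≤ 2 := by
    have := (abs_le.1 s1).2
    linarith
  have hs0 : 0 < s := by
    have := (abs_le.1 s1).1
    linarith
  set Φ : (Fin k → ℕ) → ℂ := fun s => G (fun j => Om (s j)) with hΦ
  have hΦ1 : ∀ d, ‖Φ d‖ ≤ 1 := fun d => hG _
  set f : ℕ → ℂ := fun n => b (Om n) with hf
  have hf1 : ∀ n, ‖f n‖ ≤ 1 := fun n => hb _
  set κ : ℂ := cav w y (y ^ K1) Φ (fun _ => 1) with hκ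
  set C : ℕ → ℂ := fun n => cav w y (y ^ K1) Φ (fun j => Nat.gcd (lf 1 (a j) n) Q) with hC
  have hκ1 : ‖κ‖ ≤ 1 := cav_norm k w y _ Φ hΦ1 hs0 _
  have t3 := s3 Φ hΦ1 f (KF_Om b hb) (fun _ => 1) (fun _ => by simp) (fun _ => rfl)
  -- step 1
  set F : ℕ → ℂ := fun n => f n * G (fun j => Om (lf 1 (a j) n)) with hF
  have hF1 : ∀ n, ‖F n‖ ≤ 1 := by
    intro n
    rw [hF]
    simp only [norm_mul]
    calc ‖f n‖ * ‖G (fun j => Om (lf 1 (a j) n))‖ ≤ 1 * 1 :=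
          mul_le_mul (hf1 n) (hG _) (norm_nonneg _) zero_le_one
      _ = 1 := one_mul 1
  have u0 : ∑ n ∈ Ioc 0 X, b (ArithmeticFunction.cardFactors (n + h0)) *
      G (fun j => ArithmeticFunction.cardFactors (n + h j)) = ∑ n ∈ Ioc 0 X, F (n + h0) := by
    refine Finset.sum_congr rfl fun n _ => ?_
    rw [hF]
    simp only [hf]
    have : (fun j => Om (lf 1 (a j) (n + h0))) = fun j => Om (n + h j) := by
      ext j
      congr 1
      unfold lf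
      rw [ha]
      push_cast
      have : (1 : ℤ) * (n + h0) + (h j - h0) = ((n + h j : ℕ) : ℤ) := by
        push_cast
        ring
      rw [this, Int.natAbs_natCast]
    rw [this]
  have u1 : ‖∑ n ∈ Ioc 0 X, F (n + h0) - ∑ n ∈ Ioc 0 X, F n‖ ≤ 2 * h0 := shift F hF1 X h0
  have u2 : ‖∑ n ∈ Ioc 0 X, F n - ∑ n ∈ Ioc 0 X, f n * Φ (fun j => sm 0 y (lf 1 (a j) n))‖ ≤
      (δ * (k * R)) * X := by
    rw [← Finset.sum_sub_distrib]
    refine (norm_sum_le _ _).trans ?_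
    have v1 : ∀ n ∈ Ioc 0 X, ‖F n - f n * Φ (fun j => sm 0 y (lf 1 (a j) n))‖ ≤ δ * (k * R) := by
      intro n hn
      have hn2 := (Finset.mem_Ioc.1 hn).2
      rw [hF]
      simp only
      rw [← mul_sub, norm_mul]
      have v2 : ‖G (fun j => Om (lf 1 (a j) n)) - Φ (fun j => sm 0 y (lf 1 (a j) n))‖ ≤
          δ * (k * R) := by
        rw [hΦ]
        simp only
        refine (hL _ _).trans ?_
        apply mul_le_mul_of_nonneg_left _ hδ0.le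
        have v3 : ∀ j ∈ (Finset.univ : Finset (Fin k)),
            |(Om (lf 1 (a j) n) : ℝ) - Om (sm 0 y (lf 1 (a j) n))| ≤ R := by
          intro j _
          rw [abs_sub_comm]
          apply diff_y (by omega)
          have := lf_le a j n
          omega
        refine (Finset.sum_le_card_nsmul _ _ _ v3).trans (le_of_eq ?_)
        simp
      calc ‖f n‖ * ‖G (fun j => Om (lf 1 (a j) n)) - Φ (fun j => sm 0 y (lf 1 (a j) n))‖ ≤
            1 * (δ * (k * R)) := mul_le_mul (hf1 n) v2 (norm_nonneg _) zero_le_one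
        _ = _ := one_mul _
    refine (Finset.sum_le_card_nsmul _ _ _ v1).trans (le_of_eq ?_)
    rw [nsmul_eq_mul, Nat.card_Ioc]
    simp only [Nat.sub_zero]
    ring
  have u3 : ‖∑ n ∈ Ioc 0 X, f n * Φ (fun j => sm 0 y (lf 1 (a j) n)) -
      ∑ n ∈ Ioc 0 X, f n * C n‖ ≤ ε1 * X := by
    rw [← Finset.sum_sub_distrib]
    refine le_trans (le_of_eq ?_) t3
    congr 1
    refine Finset.sum_congr rfl fun n _ => ?_
    rw [hC]
    simp only
    ring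
  have u4 : ‖∑ n ∈ Ioc 0 X, f n * C n - ∑ n ∈ Ioc 0 X, f n * κ‖ ≤ (δ * (k * Om Q)) * X := by
    rw [← Finset.sum_sub_distrib]
    refine (norm_sum_le _ _).trans ?_
    have v1 : ∀ n ∈ Ioc 0 X, ‖f n * C n - f n * κ‖ ≤ δ * (k * Om Q) := by
      intro n _
      rw [← mul_sub, norm_mul]
      have v2 : ‖C n - κ‖ ≤ δ * (k * Om Q) :=
        cav_near k w y _ δ hδ0.le G hL hs0 Q (by omega) _ (fun j => Nat.gcd_dvd_right _ _)
      calc ‖f n‖ * ‖C n - κ‖ ≤ 1 * (δ * (k * Om Q)) :=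
            mul_le_mul (hf1 n) v2 (norm_nonneg _) zero_le_one
        _ = _ := one_mul _
    refine (Finset.sum_le_card_nsmul _ _ _ v1).trans (le_of_eq ?_)
    rw [nsmul_eq_mul, Nat.card_Ioc]
    simp only [Nat.sub_zero]
    ring
  -- the mean of `G`
  set MG : ℂ := (∑ m ∈ Fintype.piFinset (fun _ : Fin k => Ioc 0 X),
    G (fun j => Om (m j))) / (X : ℂ) ^ k with hMG
  set η : ℝ := δ * (R + w) + ε1 with hη
  have hη0 : 0 ≤ η := by positivity
  have hXR : X < y ^ (R + 1) := by omega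
  have one := fun (g : ℕ → ℂ) (hg : ∀ l, ‖g l‖ ≤ 1)
    (hgL : ∀ l l', ‖g l - g l'‖ ≤ δ * |(l : ℝ) - l'|) =>
    oned X (y ^ K1) w y R hX0 hyw (by omega) hXR δ ε1 hδ0.le s2 g hg hgL
  have w1 := repl X (y ^ K1) w y hX0 δ η hη0 hs2 one k G hG hL
  have w2 := repl X (y ^ K1) w y hX0 δ η hη0 hs2 one k (fun _ => 1) (fun _ => by simp)
    (fun l l' => by
      simp only [sub_self, norm_zero]
      exact mul_nonneg hδ0.le (Finset.sum_nonneg fun _ _ => abs_nonneg _))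
  have hXc : (X : ℂ) ≠ 0 := by exact_mod_cast hX0.ne'
  set P : ℂ := ∑ d ∈ W208.TL.box k (y ^ K1), G (fun j => Om (d j)) * ∏ j, (mu w y (d j) : ℂ) with hP
  have hsk : (∑ d ∈ W208.TL.box k (y ^ K1), (1 : ℂ) * ∏ j, (mu w y (d j) : ℂ)) = ((s ^ k : ℝ) : ℂ) := by
    rw [hs, ← sum_box]
    push_cast
    simp
  have w3 : ‖(1 : ℂ) - ((s ^ k : ℝ) : ℂ)‖ ≤ 2 ^ k * η := by
    rw [hsk] at w2
    have : (∑ m ∈ Fintype.piFinset (fun _ : Fin k => Ioc 0 X), (1 : ℂ)) / (X : ℂ) ^ k = 1 := by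
      rw [Finset.sum_const, Fintype.card_piFinset]
      simp only [Finset.prod_const, Finset.card_univ, Fintype.card_fin, Nat.card_Ioc, Nat.sub_zero,
        nsmul_eq_mul, mul_one]
      push_cast
      exact div_self (pow_ne_zero k hXc)
    rwa [this] at w2
  have hκP : κ * ((s ^ k : ℝ) : ℂ) = P := by
    rw [hκ]
    unfold cav
    have e1 : (∑ d ∈ Icc 1 (y ^ K1), (mu w y d : ℂ)) ^ k = ((s ^ k : ℝ) : ℂ) := by
      rw [hs]
      push_cast
      rfl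
    rw [e1, div_mul_cancel₀]
    · rw [hP, hΦ]
      refine Finset.sum_congr rfl fun d _ => ?_
      simp only [one_mul]
    · exact_mod_cast (pow_pos hs0 k).ne'
  have w4 : ‖κ - MG‖ ≤ 2 * (2 ^ k * η) := by
    have e1 : κ - MG = κ * (1 - ((s ^ k : ℝ) : ℂ)) - (MG - P) := by
      rw [← hκP]
      ring
    rw [e1]
    refine (norm_sub_le _ _).trans ?_
    rw [norm_mul]
    have e2 : ‖κ‖ * ‖(1 : ℂ) - ((s ^ k : ℝ) : ℂ)‖ ≤ 1 * (2 ^ k * η) :=
      mul_le_mul hκ1 w3 (norm_nonneg _) zero_le_one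
    have e3 : ‖MG - P‖ ≤ 2 ^ k * η := w1
    linarith
  have u5 : ‖∑ n ∈ Ioc 0 X, f n * κ - (∑ n ∈ Ioc 0 X, f n) * MG‖ ≤ 2 * (2 ^ k * η) * X := by
    rw [← Finset.sum_mul, ← mul_sub, norm_mul]
    have e1 : ‖∑ n ∈ Ioc 0 X, f n‖ ≤ X := by
      refine (norm_sum_le _ _).trans ?_
      refine (Finset.sum_le_card_nsmul _ _ _ (fun n _ => hf1 n)).trans (le_of_eq ?_)
      simp
    calc ‖∑ n ∈ Ioc 0 X, f n‖ * ‖κ - MG‖ ≤ X * (2 * (2 ^ k * η)) :=
          mul_le_mul e1 w4 (norm_nonneg _) hXr.le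
      _ = _ := by ring
  -- conclusion
  have fin1 : ‖∑ n ∈ Ioc 0 X, F (n + h0) - (∑ n ∈ Ioc 0 X, f n) * MG‖ ≤
      2 * h0 + (δ * (k * R)) * X + ε1 * X + (δ * (k * Om Q)) * X + 2 * (2 ^ k * η) * X := by
    have e1 : ∑ n ∈ Ioc 0 X, F (n + h0) - (∑ n ∈ Ioc 0 X, f n) * MG =
      (∑ n ∈ Ioc 0 X, F (n + h0) - ∑ n ∈ Ioc 0 X, F n) +
      (∑ n ∈ Ioc 0 X, F n - ∑ n ∈ Ioc 0 X, f n * Φ (fun j => sm 0 y (lf 1 (a j) n))) +
      (∑ n ∈ Ioc 0 X, f n * Φ (fun j => sm 0 y (lf 1 (a j) n)) - ∑ n ∈ Ioc 0 X, f n * C n) +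
      (∑ n ∈ Ioc 0 X, f n * C n - ∑ n ∈ Ioc 0 X, f n * κ) +
      (∑ n ∈ Ioc 0 X, f n * κ - (∑ n ∈ Ioc 0 X, f n) * MG) := by ring
    rw [e1]
    refine (norm_add_le _ _).trans (add_le_add ?_ u5)
    refine (norm_add_le _ _).trans (add_le_add ?_ u4)
    refine (norm_add_le _ _).trans (add_le_add ?_ u3)
    exact (norm_add_le _ _).trans (add_le_add u1 u2)
  have e0 : (∑ n ∈ Ioc 0 X, b (ArithmeticFunction.cardFactors (n + h0)) *
            G (fun j => ArithmeticFunction.cardFactors (n + h j))) / (X : ℂ) -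
        ((∑ n ∈ Ioc 0 X, b (ArithmeticFunction.cardFactors n)) / (X : ℂ)) *
          ((∑ m ∈ Fintype.piFinset (fun _ : Fin k => Ioc 0 X),
            G (fun j => ArithmeticFunction.cardFactors (m j))) / (X : ℂ) ^ k) =
      (∑ n ∈ Ioc 0 X, F (n + h0) - (∑ n ∈ Ioc 0 X, f n) * MG) / (X : ℂ) := by
    rw [u0, hMG, hf]
    ring
  rw [e0, norm_div, Complex.norm_natCast, div_le_iff₀ hXr]
  refine fin1.trans ?_
  have z1 : 2 * (h0 : ℝ) ≤ ε / 4 * X := by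
    have : 8 * (h0 : ℝ) / ε ≤ X := hX1.trans (by exact_mod_cast hXX1)
    rw [div_le_iff₀ hε] at this
    linarith
  have z2 : δ * (k * R) + ε1 + δ * (k * Om Q) + 2 * (2 ^ k * η) ≤ 3 * ε / 4 := by
    have : δ * (k * R) + ε1 + δ * (k * Om Q) + 2 * (2 ^ k * η) =
        δ * D + ε1 + 2 * (2 ^ k * ε1) := by
      rw [hη, hD]
      ring
    rw [this]
    linarith
  calc 2 * (h0 : ℝ) + (δ * (k * R)) * X + ε1 * X + (δ * (k * Om Q)) * X + 2 * (2 ^ k * η) * X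
      = 2 * h0 + (δ * (k * R) + ε1 + δ * (k * Om Q) + 2 * (2 ^ k * η)) * X := by ring
    _ ≤ ε / 4 * X + (3 * ε / 4) * X := add_le_add z1 (mul_le_mul_of_nonneg_right z2 hXr.le)
    _ = ε * X := by ring

end Pool.Agent.W883.TL
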