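import Pool.Agent.W208.TL.Stm

/-! Project TL, part OM: arithmetic of `Ω` and of the smooth parts. -/

set_option autoImplicit false

namespace Pool.Agent.W883.TL

open Finset Filter Pool.Agent.W208.TL

/-- number of prime factors with multiplicity -/
abbrev Om (n : ℕ) : ℕ := ArithmeticFunction.cardFactors n

lemma mem_PP {w y l : ℕ} : l ∈ PP w y ↔ (w < l ∧ l ≤ y) ∧ l.Prime := by
  simp [PP]

lemma sm_ne (w y n : ℕ) : sm w y n ≠ 0 := by
  unfold sm
  rw [Finset.prod_ne_zero_iff]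
  intro l hl
  exact pow_ne_zero _ (mem_PP.1 hl).2.ne_zero

lemma Om_prod (s : Finset ℕ) (hs : ∀ l ∈ s, l.Prime) (e : ℕ → ℕ) :
    Om (∏ l ∈ s, l ^ e l) = ∑ l ∈ s, e l := by
  classical
  induction s using Finset.induction_on with
  | empty => simp [Om]
  | insert a s ha ih =>
    rw [Finset.prod_insert ha, Finset.sum_insert ha]
    have h1 : a.Prime := hs a (Finset.mem_insert_self a s)
    have h2 : ∀ l ∈ s, l.Prime := fun l hl => hs l (Finset.mem_insert_of_mem hl)
    have h3 : ∏ l ∈ s, l ^ e l ≠ 0 := by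
      rw [Finset.prod_ne_zero_iff]
      intro l hl
      exact pow_ne_zero _ (h2 l hl).ne_zero
    unfold Om at ih ⊢
    rw [ArithmeticFunction.cardFactors_mul (pow_ne_zero _ h1.ne_zero) h3, ih h2,
      ArithmeticFunction.cardFactors_apply_prime_pow h1]

lemma Om_sm (w y n : ℕ) : Om (sm w y n) = ∑ l ∈ PP w y, n.factorization l :=
  Om_prod _ (fun _ hl => (mem_PP.1 hl).2) _

lemma supp_sub {n N : ℕ} (hn : n ≠ 0) (h : n ≤ N) : n.factorization.support ⊆ PP 0 N := by
  intro l hl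
  rw [Nat.support_factorization] at hl
  have h1 := Nat.prime_of_mem_primeFactors hl
  exact mem_PP.2 ⟨⟨h1.pos, (Nat.le_of_dvd (Nat.pos_of_ne_zero hn)
    (Nat.dvd_of_mem_primeFactors hl)).trans h⟩, h1⟩

lemma Om_full {n N : ℕ} (hn : n ≠ 0) (h : n ≤ N) : Om n = ∑ l ∈ PP 0 N, n.factorization l := by
  unfold Om
  rw [ArithmeticFunction.cardFactors_eq_sum_factorization]
  exact Finsupp.sum_of_support_subset _ (supp_sub hn h) _ (fun _ _ => rfl)

lemma sm_full {n N : ℕ} (hn : n ≠ 0) (h : n ≤ N) : sm 0 N n = n := by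
  conv_rhs => rw [← Nat.prod_factorization_pow_eq_self hn]
  symm
  exact Finsupp.prod_of_support_subset _ (supp_sub hn h) _ (fun _ _ => pow_zero _)

lemma sm_dvd {n : ℕ} (hn : n ≠ 0) (w y : ℕ) : sm w y n ∣ n := by
  conv_rhs => rw [← sm_full hn (le_max_left n y)]
  apply Finset.prod_dvd_prod_of_subset
  intro l hl
  rw [mem_PP] at hl ⊢
  exact ⟨⟨hl.2.pos, hl.1.2.trans (le_max_right _ _)⟩, hl.2⟩

lemma PP_split {w y : ℕ} (h : w ≤ y) (g : ℕ → ℕ) :
    ∑ l ∈ PP 0 y, g l = ∑ l ∈ PP 0 w, g l + ∑ l ∈ PP w y, g l := by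
  classical
  rw [← Finset.sum_union]
  · apply Finset.sum_congr _ (fun _ _ => rfl)
    ext l
    simp only [Finset.mem_union, mem_PP]
    constructor
    · rintro ⟨⟨h1, h2⟩, h3⟩
      rcases le_or_gt l w with h4 | h4
      · exact Or.inl ⟨⟨h1, h4⟩, h3⟩
      · exact Or.inr ⟨⟨h4, h2⟩, h3⟩
    · rintro (⟨⟨h1, h2⟩, h3⟩ | ⟨⟨h1, h2⟩, h3⟩)
      · exact ⟨⟨h1, h2.trans h⟩, h3⟩
      · exact ⟨⟨h3.pos, h2⟩, h3⟩
  · rw [Finset.disjoint_left]
    intro l h1 h2
    rw [mem_PP] at h1 h2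
    omega

lemma Om_split {w y : ℕ} (h : w ≤ y) (n : ℕ) :
    Om (sm 0 y n) = Om (sm 0 w n) + Om (sm w y n) := by
  rw [Om_sm, Om_sm, Om_sm]
  exact PP_split h _

/-- the number of prime factors above `y` -/
lemma big_bound {n y R : ℕ} (hn : n ≠ 0) (hy : 1 < y) (h : n < y ^ (R + 1)) :
    Om (sm 0 y n) ≤ Om n ∧ Om n ≤ Om (sm 0 y n) + R := by
  have h1 : Om n = Om (sm 0 y n) + Om (sm y (max n y) n) := by
    rw [Om_sm, Om_sm, Om_full hn (le_max_left n y)]
    exact PP_split (le_max_right _ _) _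
  have h2 : y ^ Om (sm y (max n y) n) ≤ n := by
    calc y ^ Om (sm y (max n y) n) = ∏ l ∈ PP y (max n y), y ^ n.factorization l := by
          rw [Om_sm, Finset.prod_pow_eq_pow_sum]
      _ ≤ ∏ l ∈ PP y (max n y), l ^ n.factorization l := by
          apply Finset.prod_le_prod'
          intro l hl
          exact Nat.pow_le_pow_left (mem_PP.1 hl).1.1.le _
      _ ≤ n := Nat.le_of_dvd (Nat.pos_of_ne_zero hn) (sm_dvd hn _ _)
  have h3 : Om (sm y (max n y) n) < R + 1 := by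
    by_contra h4
    push Not at h4
    have := Nat.pow_le_pow_right (by omega : 0 < y) h4
    omega
  omega

lemma sm_zero (w y : ℕ) : sm w y 0 = 1 := by
  unfold sm
  simp

/-- difference of `Ω(m)` and `Ω` of the `y`-smooth part -/
lemma diff_y {m y R : ℕ} (hy : 1 < y) (h : m < y ^ (R + 1)) :
    |(Om (sm 0 y m) : ℝ) - Om m| ≤ R := by
  rcases Nat.eq_zero_or_pos m with rfl | hm
  · rw [sm_zero]
    simp [Om]
  · obtain ⟨h1, h2⟩ := big_bound hm.ne' hy h
    have h1' : (Om (sm 0 y m) : ℝ) ≤ Om m := by exact_mod_cast h1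
    have h2' : (Om m : ℝ) ≤ Om (sm 0 y m) + R := by exact_mod_cast h2
    rw [abs_le]
    constructor <;> linarith

lemma diff_wy {m w y R : ℕ} (hwy : w ≤ y) (hy : 1 < y) (h : m < y ^ (R + 1)) :
    |(Om m : ℝ) - Om (sm w y m)| ≤ R + Om (sm 0 w m) := by
  have h1 := diff_y hy h
  have h2 := Om_split hwy m
  rw [abs_sub_comm] at h1
  have h2' : (Om (sm 0 y m) : ℝ) = Om (sm 0 w m) + Om (sm w y m) := by exact_mod_cast h2
  have h3 : (Om m : ℝ) - Om (sm w y m) = (Om m - Om (sm 0 y m)) + Om (sm 0 w m) := by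
    rw [h2']; ring
  rw [h3]
  refine (abs_add_le _ _).trans ?_
  rw [abs_of_nonneg (Nat.cast_nonneg (α := ℝ) (Om (sm 0 w m)))]
  linarith

/-- the mean of the number of small prime factors -/
lemma sum_small (w X : ℕ) : ∑ m ∈ Ioc 0 X, Om (sm 0 w m) ≤ w * X := by
  have h1 : ∀ m, Om (sm 0 w m) = ∑ l ∈ PP 0 w, m.factorization l := fun m => Om_sm 0 w m
  simp_rw [h1]
  rw [Finset.sum_comm]
  have h2 : ∀ l ∈ PP 0 w, ∑ m ∈ Ioc 0 X, m.factorization l ≤ X := by
    intro l hl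
    have hp := (mem_PP.1 hl).2
    have h3 : ∑ m ∈ Ioc 0 X, m.factorization l = (X.factorial).factorization l := by
      rw [← Finset.prod_Ico_id_eq_factorial]
      rw [Nat.factorization_prod_apply (fun m hm => by
        have := (Finset.mem_Ico.1 hm).1
        omega)]
      apply Finset.sum_congr _ (fun _ _ => rfl)
      ext m
      simp only [Finset.mem_Ioc, Finset.mem_Ico]
      omega
    rw [h3]
    exact (Nat.factorization_factorial_le_div_pred hp X).trans (Nat.div_le_self _ _)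
  refine (Finset.sum_le_card_nsmul _ _ _ h2).trans ?_
  rw [smul_eq_mul]
  apply Nat.mul_le_mul_right
  unfold PP
  refine (Finset.card_filter_le _ _).trans ?_
  simp

lemma Om_dvd {A Q : ℕ} (hQ : Q ≠ 0) (h : A ∣ Q) : Om A ≤ Om Q := by
  obtain ⟨c, rfl⟩ := h
  have hA : A ≠ 0 := left_ne_zero_of_mul hQ
  have hc : c ≠ 0 := right_ne_zero_of_mul hQ
  unfold Om
  rw [ArithmeticFunction.cardFactors_mul hA hc]
  omega

/-- functions of `Ω` are in `KF` -/
lemma KF_Om (b : ℕ → ℂ) (hb : ∀ l, ‖b l‖ ≤ 1) : KF (fun n => b (Om n)) := by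
  refine ⟨fun n => hb _, fun _ => 1, fun n => b (Om n + 1), fun _ => by simp, fun n => hb _, ?_⟩
  intro p n hp hn
  have hn0 : n ≠ 0 := by
    rintro rfl
    exact hn (dvd_zero p)
  change b (ArithmeticFunction.cardFactors (p * n)) =
    1 * b (ArithmeticFunction.cardFactors n + 1)
  rw [ArithmeticFunction.cardFactors_mul hp.ne_zero hn0, ArithmeticFunction.cardFactors_apply_prime hp,
    one_mul, add_comm]

end Pool.Agent.W883.TL
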