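import Pool.Agent.W883.TL.OmA

/-! Project TL, part OM: averages over products, replacement of one coordinate after the other. -/

set_option autoImplicit false

namespace Pool.Agent.W883.TL

open Finset Filter Pool.Agent.W208.TL

/-- `δ`-Lipschitz for the `l^1`-distance -/
def LipG (k : ℕ) (δ : ℝ) (G : (Fin k → ℕ) → ℂ) : Prop :=
  ∀ l l' : Fin k → ℕ, ‖G l - G l'‖ ≤ δ * ∑ j, |(l j : ℝ) - l' j|

lemma sum_cons {M : Type} [AddCommMonoid M] (t : Finset ℕ) (k : ℕ) (F : (Fin (k + 1) → ℕ) → M) :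
    ∑ m ∈ Fintype.piFinset (fun _ : Fin (k + 1) => t), F m =
      ∑ a ∈ t, ∑ m ∈ Fintype.piFinset (fun _ : Fin k => t), F (Fin.cons a m) := by
  rw [← Finset.sum_product']
  refine Finset.sum_bij' (fun m _ => (m 0, Fin.tail m)) (fun q _ => Fin.cons q.1 q.2) ?_ ?_ ?_ ?_ ?_
  · intro m hm
    rw [Fintype.mem_piFinset] at hm
    rw [Finset.mem_product, Fintype.mem_piFinset]
    exact ⟨hm 0, fun i => hm i.succ⟩
  · intro q hq
    rw [Finset.mem_product, Fintype.mem_piFinset] at hq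
    rw [Fintype.mem_piFinset]
    intro i
    refine Fin.cases ?_ (fun i => ?_) i
    · simpa using hq.1
    · simpa using hq.2 i
  · intro m _
    simp
  · intro q _
    simp
  · intro m _
    simp

lemma mu_nonneg (w y d : ℕ) : 0 ≤ mu w y d := by
  unfold mu
  split_ifs
  · apply div_nonneg _ (Nat.cast_nonneg d)
    apply Finset.prod_nonneg
    intro l hl
    have h1 : (1 : ℝ) ≤ l := by exact_mod_cast (mem_PP.1 hl).2.one_lt.le
    have : 1 / (l : ℝ) ≤ 1 := by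
      rw [div_le_one (by linarith)]
      exact h1
    linarith
  · exact le_rfl

lemma sum_box (w y Z k : ℕ) : ∑ d ∈ box k Z, ∏ j, mu w y (d j) =
    (∑ d ∈ Icc 1 Z, mu w y d) ^ k := by
  unfold W208.TL.box
  rw [← Finset.prod_univ_sum]
  simp

/-- the replacement -/
lemma repl (X Z w y : ℕ) (hX : 0 < X) (δ η : ℝ) (hη : 0 ≤ η)
    (hs : ∑ d ∈ Icc 1 Z, mu w y d ≤ 2)
    (h1 : ∀ g : ℕ → ℂ, (∀ l, ‖g l‖ ≤ 1) → (∀ l l', ‖g l - g l'‖ ≤ δ * |(l : ℝ) - l'|) →
      ‖(∑ m ∈ Ioc 0 X, g (Om m)) / (X : ℂ) - ∑ d ∈ Icc 1 Z, g (Om d) * (mu w y d : ℂ)‖ ≤ η) :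
    ∀ (k : ℕ) (G : (Fin k → ℕ) → ℂ), (∀ l, ‖G l‖ ≤ 1) → LipG k δ G →
      ‖(∑ m ∈ Fintype.piFinset (fun _ : Fin k => Ioc 0 X), G (fun j => Om (m j))) / (X : ℂ) ^ k -
        ∑ d ∈ box k Z, G (fun j => Om (d j)) * ∏ j, (mu w y (d j) : ℂ)‖ ≤ 2 ^ k * η := by
  intro k
  have hXc : (X : ℂ) ≠ 0 := by exact_mod_cast hX.ne'
  have hXr : (0 : ℝ) < X := by exact_mod_cast hX
  induction k with
  | zero =>
    intro G _ _
    simp [W208.TL.box]
    exact hη
  | succ k ih =>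
    intro G hG hL
    have hc : ∀ (a : ℕ) (m : Fin k → ℕ), (fun j : Fin (k + 1) => Om ((Fin.cons a m : Fin (k + 1) → ℕ) j))
        = Fin.cons (Om a) (fun j => Om (m j)) := by
      intro a m
      ext j
      refine Fin.cases ?_ (fun i => ?_) j
      · simp
      · simp
    have e1 : ∑ m ∈ Fintype.piFinset (fun _ : Fin (k + 1) => Ioc 0 X), G (fun j => Om (m j)) =
        ∑ a ∈ Ioc 0 X, ∑ m ∈ Fintype.piFinset (fun _ : Fin k => Ioc 0 X),
          G (Fin.cons (Om a) (fun j => Om (m j))) := by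
      rw [sum_cons]
      refine Finset.sum_congr rfl fun a _ => Finset.sum_congr rfl fun m _ => ?_
      rw [hc]
    have e2 : ∑ d ∈ box (k + 1) Z, G (fun j => Om (d j)) * ∏ j, (mu w y (d j) : ℂ) =
        ∑ d ∈ box k Z, (∏ j, (mu w y (d j) : ℂ)) * ∑ a ∈ Icc 1 Z,
          G (Fin.cons (Om a) (fun j => Om (d j))) * (mu w y a : ℂ) := by
      unfold W208.TL.box
      rw [sum_cons, Finset.sum_comm]
      refine Finset.sum_congr rfl fun d _ => ?_
      rw [Finset.mul_sum]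
      refine Finset.sum_congr rfl fun a _ => ?_
      rw [hc, Fin.prod_univ_succ]
      simp only [Fin.cons_zero, Fin.cons_succ]
      ring
    -- the middle term
    set T : ℂ := (∑ a ∈ Ioc 0 X, ∑ d ∈ box k Z, G (Fin.cons (Om a) (fun j => Om (d j))) *
      ∏ j, (mu w y (d j) : ℂ)) / (X : ℂ) with hT
    have f1 : ‖(∑ m ∈ Fintype.piFinset (fun _ : Fin (k + 1) => Ioc 0 X), G (fun j => Om (m j))) /
        (X : ℂ) ^ (k + 1) - T‖ ≤ 2 ^ k * η := by
      have g1 : (∑ m ∈ Fintype.piFinset (fun _ : Fin (k + 1) => Ioc 0 X), G (fun j => Om (m j))) /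
          (X : ℂ) ^ (k + 1) - T = (∑ a ∈ Ioc 0 X,
          ((∑ m ∈ Fintype.piFinset (fun _ : Fin k => Ioc 0 X),
            G (Fin.cons (Om a) (fun j => Om (m j)))) / (X : ℂ) ^ k -
          ∑ d ∈ box k Z, G (Fin.cons (Om a) (fun j => Om (d j))) *
            ∏ j, (mu w y (d j) : ℂ))) / (X : ℂ) := by
        rw [e1, hT, Finset.sum_sub_distrib, ← Finset.sum_div, sub_div, div_div, pow_succ]
      rw [g1, norm_div, Complex.norm_natCast, div_le_iff₀ hXr]
      refine (norm_sum_le _ _).trans ?_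
      have g2 : ∀ a ∈ Ioc 0 X, ‖((∑ m ∈ Fintype.piFinset (fun _ : Fin k => Ioc 0 X),
            G (Fin.cons (Om a) (fun j => Om (m j)))) / (X : ℂ) ^ k -
          ∑ d ∈ box k Z, G (Fin.cons (Om a) (fun j => Om (d j))) *
            ∏ j, (mu w y (d j) : ℂ))‖ ≤ 2 ^ k * η := by
        intro a _
        apply ih (fun l => G (Fin.cons (Om a) l)) (fun l => hG _)
        intro l l'
        refine (hL _ _).trans (le_of_eq ?_)
        rw [Fin.sum_univ_succ]
        simp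
      refine (Finset.sum_le_card_nsmul _ _ _ g2).trans (le_of_eq ?_)
      rw [nsmul_eq_mul, Nat.card_Ioc]
      simp
      ring
    have f2 : ‖T - ∑ d ∈ box (k + 1) Z, G (fun j => Om (d j)) * ∏ j, (mu w y (d j) : ℂ)‖ ≤
        2 ^ k * η := by
      have g1 : T - ∑ d ∈ box (k + 1) Z, G (fun j => Om (d j)) * ∏ j, (mu w y (d j) : ℂ) =
          ∑ d ∈ box k Z, (∏ j, (mu w y (d j) : ℂ)) *
          ((∑ a ∈ Ioc 0 X, G (Fin.cons (Om a) (fun j => Om (d j)))) / (X : ℂ) -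
            ∑ a ∈ Icc 1 Z, G (Fin.cons (Om a) (fun j => Om (d j))) * (mu w y a : ℂ)) := by
        rw [e2, hT, Finset.sum_comm, Finset.sum_div, ← Finset.sum_sub_distrib]
        refine Finset.sum_congr rfl fun d _ => ?_
        rw [← Finset.sum_mul]
        ring
      rw [g1]
      refine (norm_sum_le _ _).trans ?_
      have g2 : ∀ d ∈ box k Z, ‖(∏ j, (mu w y (d j) : ℂ)) *
          ((∑ a ∈ Ioc 0 X, G (Fin.cons (Om a) (fun j => Om (d j)))) / (X : ℂ) -
            ∑ a ∈ Icc 1 Z, G (Fin.cons (Om a) (fun j => Om (d j))) * (mu w y a : ℂ))‖ ≤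
          (∏ j, mu w y (d j)) * η := by
        intro d _
        rw [norm_mul, norm_prod]
        have g3 : ∏ j, ‖(mu w y (d j) : ℂ)‖ = ∏ j, mu w y (d j) := by
          refine Finset.prod_congr rfl fun j _ => ?_
          rw [Complex.norm_real, Real.norm_eq_abs, abs_of_nonneg (mu_nonneg w y _)]
        rw [g3]
        apply mul_le_mul_of_nonneg_left _ (Finset.prod_nonneg fun j _ => mu_nonneg w y _)
        apply h1 (fun a => G (Fin.cons a (fun j => Om (d j)))) (fun l => hG _)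
        intro l l'
        refine (hL _ _).trans (le_of_eq ?_)
        rw [Fin.sum_univ_succ]
        simp
      refine (Finset.sum_le_sum g2).trans ?_
      rw [← Finset.sum_mul, sum_box]
      apply mul_le_mul_of_nonneg_right _ hη
      exact pow_le_pow_left₀ (Finset.sum_nonneg fun d _ => mu_nonneg w y d) hs k
    calc _ ≤ _ := norm_sub_le_norm_sub_add_norm_sub _ T _
      _ ≤ 2 ^ k * η + 2 ^ k * η := add_le_add f1 f2
      _ = 2 ^ (k + 1) * η := by ring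

/-- the one-dimensional statement -/
lemma oned (X Z w y R : ℕ) (hX : 0 < X) (hwy : w ≤ y) (hy : 1 < y) (hR : X < y ^ (R + 1))
    (δ ε : ℝ) (hδ : 0 ≤ δ)
    (h : ∀ ψ : ℕ → ℂ, (∀ d, ‖ψ d‖ ≤ 1) → ‖(∑ m ∈ Ioc 0 X, ψ (sm w y m)) / (X : ℂ) -
      ∑ d ∈ Icc 1 Z, ψ d * (mu w y d : ℂ)‖ ≤ ε)
    (g : ℕ → ℂ) (hg : ∀ l, ‖g l‖ ≤ 1) (hL : ∀ l l', ‖g l - g l'‖ ≤ δ * |(l : ℝ) - l'|) :
    ‖(∑ m ∈ Ioc 0 X, g (Om m)) / (X : ℂ) - ∑ d ∈ Icc 1 Z, g (Om d) * (mu w y d : ℂ)‖ ≤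
      δ * (R + w) + ε := by
  have hXr : (0 : ℝ) < X := by exact_mod_cast hX
  have h1 := h (fun d => g (Om d)) (fun d => hg _)
  have h2 : ‖(∑ m ∈ Ioc 0 X, g (Om m)) / (X : ℂ) - (∑ m ∈ Ioc 0 X, g (Om (sm w y m))) / (X : ℂ)‖ ≤
      δ * (R + w) := by
    rw [← sub_div, ← Finset.sum_sub_distrib, norm_div, Complex.norm_natCast, div_le_iff₀ hXr]
    refine (norm_sum_le _ _).trans ?_
    have h3 : ∀ m ∈ Ioc 0 X, ‖g (Om m) - g (Om (sm w y m))‖ ≤ δ * (R + Om (sm 0 w m)) := by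
      intro m hm
      refine (hL _ _).trans ?_
      apply mul_le_mul_of_nonneg_left _ hδ
      exact diff_wy hwy hy ((Finset.mem_Ioc.1 hm).2.trans_lt hR)
    refine (Finset.sum_le_sum h3).trans ?_
    rw [← Finset.mul_sum, Finset.sum_add_distrib, mul_assoc]
    apply mul_le_mul_of_nonneg_left _ hδ
    have h4 : ∑ m ∈ Ioc 0 X, (Om (sm 0 w m) : ℝ) ≤ w * X := by
      exact_mod_cast sum_small w X
    rw [Finset.sum_const, Nat.card_Ioc, nsmul_eq_mul]
    simp only [Nat.sub_zero]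
    linarith
  calc _ ≤ _ := norm_sub_le_norm_sub_add_norm_sub _ ((∑ m ∈ Ioc 0 X, g (Om (sm w y m))) / (X : ℂ)) _
    _ ≤ δ * (R + w) + ε := add_le_add h2 h1

/-- the convex combinations `cav` depend little on the frozen part -/
lemma cav_near (k w y Z : ℕ) (δ : ℝ) (hδ : 0 ≤ δ) (G : (Fin k → ℕ) → ℂ) (hL : LipG k δ G)
    (hs : 0 < ∑ d ∈ Icc 1 Z, mu w y d) (Q : ℕ) (hQ : Q ≠ 0) (A : Fin k → ℕ) (hA : ∀ j, A j ∣ Q) :
    ‖cav w y Z (fun s => G (fun j => Om (s j))) A -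
      cav w y Z (fun s => G (fun j => Om (s j))) (fun _ => 1)‖ ≤ δ * (k * Om Q) := by
  unfold cav
  rw [← sub_div, ← Finset.sum_sub_distrib, norm_div]
  have e1 : ‖(∑ d ∈ Icc 1 Z, (mu w y d : ℂ)) ^ k‖ = (∑ d ∈ Icc 1 Z, mu w y d) ^ k := by
    rw [norm_pow, ← Complex.ofReal_sum, Complex.norm_real, Real.norm_eq_abs, abs_of_pos hs]
  rw [e1, div_le_iff₀ (pow_pos hs k)]
  refine (norm_sum_le _ _).trans ?_
  have e2 : ∀ d ∈ box k Z, ‖G (fun j => Om (A j * d j)) * ∏ j, (mu w y (d j) : ℂ) -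
      G (fun j => Om (1 * d j)) * ∏ j, (mu w y (d j) : ℂ)‖ ≤
      (δ * (k * Om Q)) * ∏ j, mu w y (d j) := by
    intro d hd
    rw [← sub_mul, norm_mul, norm_prod]
    have g3 : ∏ j, ‖(mu w y (d j) : ℂ)‖ = ∏ j, mu w y (d j) := by
      refine Finset.prod_congr rfl fun j _ => ?_
      rw [Complex.norm_real, Real.norm_eq_abs, abs_of_nonneg (mu_nonneg w y _)]
    rw [g3]
    apply mul_le_mul_of_nonneg_right _ (Finset.prod_nonneg fun j _ => mu_nonneg w y _)
    refine (hL _ _).trans ?_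
    apply mul_le_mul_of_nonneg_left _ hδ
    have g4 : ∀ j ∈ (Finset.univ : Finset (Fin k)),
        |(Om (A j * d j) : ℝ) - Om (1 * d j)| ≤ Om Q := by
      intro j _
      have hd0 : d j ≠ 0 := by
        unfold W208.TL.box at hd
        rw [Fintype.mem_piFinset] at hd
        have := (Finset.mem_Icc.1 (hd j)).1
        omega
      have hA0 : A j ≠ 0 := fun h => hQ (by
        have := hA j
        rw [h] at this
        exact zero_dvd_iff.1 this)
      have g5 : Om (A j * d j) = Om (A j) + Om (d j) := ArithmeticFunction.cardFactors_mul hA0 hd0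
      rw [one_mul, g5]
      push_cast
      rw [add_sub_cancel_right, abs_of_nonneg (Nat.cast_nonneg _)]
      exact_mod_cast Om_dvd hQ (hA j)
    refine (Finset.sum_le_card_nsmul _ _ _ g4).trans (le_of_eq ?_)
    simp
  refine (Finset.sum_le_sum e2).trans (le_of_eq ?_)
  rw [← Finset.mul_sum, sum_box]

/-- shifting a sum -/
lemma shift (F : ℕ → ℂ) (hF : ∀ n, ‖F n‖ ≤ 1) (X h : ℕ) :
    ‖∑ n ∈ Ioc 0 X, F (n + h) - ∑ n ∈ Ioc 0 X, F n‖ ≤ 2 * h := by
  induction h with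
  | zero => simp
  | succ h ih =>
    have h1 : ∑ n ∈ Ioc 0 X, F (n + (h + 1)) - ∑ n ∈ Ioc 0 X, F (n + h) =
        F (X + 1 + h) - F (1 + h) := by
      rw [← Finset.sum_sub_distrib]
      have h2 : ∀ X : ℕ, ∑ n ∈ Ioc 0 X, (F (n + (h + 1)) - F (n + h)) = F (X + 1 + h) - F (1 + h) := by
        intro X
        induction X with
        | zero => simp
        | succ X ihX =>
          rw [Finset.sum_Ioc_succ_top (Nat.zero_le X), ihX]
          have e1 : X + 1 + (h + 1) = X + 1 + 1 + h := by ring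
          rw [e1]
          ring
      exact h2 X
    have h3 : ∑ n ∈ Ioc 0 X, F (n + (h + 1)) - ∑ n ∈ Ioc 0 X, F n =
        (∑ n ∈ Ioc 0 X, F (n + (h + 1)) - ∑ n ∈ Ioc 0 X, F (n + h)) +
        (∑ n ∈ Ioc 0 X, F (n + h) - ∑ n ∈ Ioc 0 X, F n) := by ring
    rw [h3, h1]
    refine (norm_add_le _ _).trans ?_
    have h4 : ‖F (X + 1 + h) - F (1 + h)‖ ≤ 2 := by
      refine (norm_sub_le _ _).trans ?_
      linarith [hF (X + 1 + h), hF (1 + h)]
    push_cast
    linarith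

end Pool.Agent.W883.TL
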